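import Pool.Agent.helper12.TZ.Spec

set_option autoImplicit false

namespace Pool.Agent.TZ

open Pool.Agent.helper58.DC Pool.Agent.DI Pool.Agent.GR Pool.Agent.OB

theorem CLA_cm {G : Type} [Group G] (D : Subgroup G) (m : ℕ) (x : Tr G) :
    Cm (x.1 ^ m) (HX D x) := by
  intro h hh
  have h1 : h ∈ Subgroup.centralizer ({x.1} : Set G) := hh.1.2
  rw [Subgroup.mem_centralizer_singleton_iff] at h1
  have h2 : Commute h x.1 := h1
  exact h2.pow_right m

/-- **CLA**. -/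
theorem CLA (hTRI : TRI_stmt) (hSTB : STB_stmt) : CLA_stmt := by
  intro G _ _ p m _ g D hD x hx b hb
  obtain ⟨hx1, hx2, hx3, hx4, hx5⟩ := hx
  have hcm := CLA_cm D m x
  have hp : IsPGroup p (HX D x) := hD.to_le (inf_le_left.trans inf_le_left)
  obtain ⟨t1, t2⟩ := hTRI G p (x.1 ^ m) x.2.1 (HX D x) hp hcm hx5 b hb
  obtain ⟨-, s2, -, -⟩ := hSTB G (x.1 ^ m) x.2.1 (HX D x) hcm hx5
  have hbn : b ∈ nrm x.2.2 := by
    have h3 : Bi (x.1 ^ m) x.2.1 (HX D x) ≤ nrm x.2.2 := by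
      refine sup_le (s2.trans inf_le_right) ?_
      rw [Subgroup.zpowers_le]
      exact Subgroup.pow_mem _ hx2 m
    exact h3 hb
  refine ⟨⟨hx1, hx2, Subgroup.mul_mem _ hx3 hbn, hx4, t1⟩, t2⟩

end Pool.Agent.TZ
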