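import Pool.Agent.helper12.TZ.Spec

set_option autoImplicit false

namespace Pool.Agent.TZ

open Pool.Agent.helper58.DC Pool.Agent.DI Pool.Agent.GR Pool.Agent.OB

theorem CLC_cjm {G : Type} [Group G] (d : G) {a : G} {K : Subgroup G} (h : a ∈ cj d K) :
    d⁻¹ * a * d ∈ K := by
  obtain ⟨c, hc, rfl⟩ := h
  have h1 : d⁻¹ * ((MulAut.conj d).toMonoidHom c) * d = c := by
    change d⁻¹ * (d * c * d⁻¹) * d = c
    group
  rw [h1]
  exact hc

theorem CLC_cjm' {G : Type} [Group G] (d : G) {a : G} {K : Subgroup G} (h : a ∈ K) :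
    d * a * d⁻¹ ∈ cj d K := ⟨a, h, rfl⟩

theorem CLC_cmul {G : Type} [Group G] (a b : G) (C : Finset (Subgroup G)) :
    chainMap (MulAut.conj a) (chainMap (MulAut.conj b) C) = chainMap (MulAut.conj (a * b)) C := by
  classical
  unfold chainMap
  rw [Finset.image_image]
  refine Finset.image_congr fun P _ => ?_
  simp only [Function.comp_apply, Subgroup.map_map, map_mul]
  rfl

theorem CLC_cone {G : Type} [Group G] (C : Finset (Subgroup G)) :
    chainMap (MulAut.conj (1 : G)) C = C := by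
  classical
  unfold chainMap
  rw [map_one]
  conv_rhs => rw [← Finset.image_id (s := C)]
  refine Finset.image_congr fun P _ => ?_
  exact Subgroup.map_id P

theorem CLC_mul {G : Type} [Group G] (a b : G) (x : Tr G) : cjT a (cjT b x) = cjT (a * b) x := by
  unfold cjT
  refine Prod.ext ?_ (Prod.ext ?_ ?_)
  · change a * (b * x.1 * b⁻¹) * a⁻¹ = a * b * x.1 * (a * b)⁻¹
    group
  · change a * (b * x.2.1 * b⁻¹) * a⁻¹ = a * b * x.2.1 * (a * b)⁻¹
    group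
  · exact CLC_cmul a b x.2.2

theorem CLC_one {G : Type} [Group G] (x : Tr G) : cjT 1 x = x := by
  unfold cjT
  refine Prod.ext ?_ (Prod.ext ?_ ?_)
  · change 1 * x.1 * 1⁻¹ = x.1
    group
  · change 1 * x.2.1 * 1⁻¹ = x.2.1
    group
  · exact CLC_cone x.2.2

theorem CLC_mR {G : Type} [Group G] (d c : G) (x : Tr G) :
    mR (cjT d x) (d * c * d⁻¹) = cjT d (mR x c) := by
  unfold cjT mR
  refine Prod.ext rfl (Prod.ext ?_ rfl)
  change d * x.2.1 * d⁻¹ * (d * c * d⁻¹) = d * (x.2.1 * c) * d⁻¹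
  group

theorem CLC_mRR {G : Type} [Group G] (b c : G) (x : Tr G) :
    mR (mR x b) c = mR x (b * c) := by
  unfold mR
  refine Prod.ext rfl (Prod.ext ?_ rfl)
  exact mul_assoc _ _ _

theorem CLC_mR1 {G : Type} [Group G] (x : Tr G) : mR x 1 = x := by
  unfold mR
  refine Prod.ext rfl (Prod.ext ?_ rfl)
  exact mul_one _

theorem CLC_bx {G : Type} [Group G] (m : ℕ) (D : Subgroup G) (x : Tr G) :
    BX m D x = UX m D x ⊔ Subgroup.zpowers (x.1 ^ m) := rfl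

theorem CLC_sub (hCLA : CLA_stmt) (hCLB : CLB_stmt) (G : Type) [Group G] [Finite G] (p m : ℕ)
    [Fact p.Prime] (g : G) (D : Subgroup G) (hD : IsPGroup p D) (hg : ∀ d ∈ D, d * g = g * d)
    (x : Tr G) (hx : x ∈ XX p g D) (x' : Tr G) (hx' : x' ∈ cls m D x) :
    x' ∈ XX p g D ∧ cls m D x' ⊆ cls m D x ∧ x ∈ cls m D x' := by
  obtain ⟨d, hd, b, hb, rfl⟩ := hx'
  obtain ⟨a1, a2⟩ := hCLA G p m g D hD x hx b hb
  obtain ⟨b1, -, -, b4⟩ := hCLB G p m g D hg d hd (mR x b) a1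
  have hB : BX m D (mR x b) = BX m D x := by
    rw [CLC_bx, CLC_bx, a2]
    rfl
  rw [hB] at b4
  refine ⟨b1, ?_, ?_⟩
  · rintro x'' ⟨d', hd', b', hb', rfl⟩
    rw [b4] at hb'
    have hc := CLC_cjm d hb'
    refine ⟨d' * d, D.mul_mem hd' hd, b * (d⁻¹ * b' * d), Subgroup.mul_mem _ hb hc, ?_⟩
    have h1 : b' = d * (d⁻¹ * b' * d) * d⁻¹ := by group
    calc cjT d' (mR (cjT d (mR x b)) b')
        = cjT d' (mR (cjT d (mR x b)) (d * (d⁻¹ * b' * d) * d⁻¹)) := by rw [← h1]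
      _ = cjT d' (cjT d (mR (mR x b) (d⁻¹ * b' * d))) := by rw [CLC_mR]
      _ = cjT (d' * d) (mR x (b * (d⁻¹ * b' * d))) := by rw [CLC_mul, CLC_mRR]
  · refine ⟨d⁻¹, D.inv_mem hd, d * b⁻¹ * d⁻¹, ?_, ?_⟩
    · rw [b4]
      exact CLC_cjm' d (Subgroup.inv_mem _ hb)
    · rw [CLC_mR, CLC_mRR, CLC_mul, mul_inv_cancel, inv_mul_cancel, CLC_mR1, CLC_one]

/-- **CLC**. -/
theorem CLC (hCLA : CLA_stmt) (hCLB : CLB_stmt) : CLC_stmt := by
  intro G _ _ p m _ g D hD hg x hx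
  refine ⟨⟨1, D.one_mem, 1, Subgroup.one_mem _, ?_⟩, ?_⟩
  · rw [CLC_mR1, CLC_one]
  · intro x' hx'
    obtain ⟨h1, h2, h3⟩ := CLC_sub hCLA hCLB G p m g D hD hg x hx x' hx'
    obtain ⟨-, h5, -⟩ := CLC_sub hCLA hCLB G p m g D hD hg x' h1 x h3
    exact ⟨h1, Set.Subset.antisymm h2 h5⟩

end Pool.Agent.TZ
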