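import Pool.Agent.helper12.TZ.Spec

set_option autoImplicit false

namespace Pool.Agent.TZ

open Pool.Agent.helper58.DC Pool.Agent.DI Pool.Agent.GR Pool.Agent.OB

theorem ORK_cm {G : Type} [Group G] (D : Subgroup G) (m : ℕ) (x : Tr G) :
    Cm (x.1 ^ m) (HX D x) := by
  intro h hh
  have h1 : h ∈ Subgroup.centralizer ({x.1} : Set G) := hh.1.2
  rw [Subgroup.mem_centralizer_singleton_iff] at h1
  have h2 : Commute h x.1 := h1
  exact h2.pow_right m

theorem ORK_pow {G : Type} [Group G] (s y κ : G) (h1 : κ * s = s * κ) (n : ℕ)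
    (h2 : κ * y * κ⁻¹ = y * s ^ n) : ∀ j : ℕ, κ ^ j * y * (κ ^ j)⁻¹ = y * s ^ (n * j) := by
  intro j
  induction j with
  | zero => simp
  | succ j ih =>
    have h3 : κ * s ^ (n * j) * κ⁻¹ = s ^ (n * j) := by
      have h4 : Commute κ (s ^ (n * j)) := Commute.pow_right h1 (n * j)
      rw [h4.eq, mul_assoc, mul_inv_cancel, mul_one]
    have h5 : κ ^ (j + 1) = κ * κ ^ j := pow_succ' κ j
    calc κ ^ (j + 1) * y * (κ ^ (j + 1))⁻¹ = κ * (κ ^ j * y * (κ ^ j)⁻¹) * κ⁻¹ := by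
          rw [h5]; group
      _ = κ * (y * s ^ (n * j)) * κ⁻¹ := by rw [ih]
      _ = (κ * y * κ⁻¹) * (κ * s ^ (n * j) * κ⁻¹) := by group
      _ = y * s ^ n * s ^ (n * j) := by rw [h2, h3]
      _ = y * s ^ (n * (j + 1)) := by rw [mul_assoc, ← pow_add, mul_add, mul_one, add_comm]

/-- **ORK**. -/
theorem ORK (hSTB : STB_stmt) : ORK_stmt := by
  intro G _ _ p m a _ g D hD x hx hP κ hκ
  obtain ⟨hx1, hx2, hx3, hx4, hx5⟩ := hx
  have hp : p.Prime := Fact.out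
  have hcm := ORK_cm D m x
  obtain ⟨-, s2, s3, s4⟩ := hSTB G (x.1 ^ m) x.2.1 (HX D x) hcm hx5
  obtain ⟨⟨k1, k2⟩, k3⟩ := hκ
  have hsB : x.1 ^ m ∈ Bi (x.1 ^ m) x.2.1 (HX D x) :=
    (le_sup_right : Subgroup.zpowers (x.1 ^ m) ≤ _) (Subgroup.mem_zpowers _)
  refine ⟨?_, ?_⟩
  · refine (s4 κ k1).1 ?_
    have h1 : x.2.1⁻¹ * κ * x.2.1 * κ⁻¹ = (x.1 ^ m) ^ p ^ a := by
      calc x.2.1⁻¹ * κ * x.2.1 * κ⁻¹ = x.2.1⁻¹ * (κ * x.2.1 * κ⁻¹) := by group
        _ = _ := by rw [k2]; group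
    rw [h1]
    exact Subgroup.pow_mem _ hsB _
  · have hpow := ORK_pow (x.1 ^ m) x.2.1 κ (hcm κ k1) (p ^ a) k2
    have hord : orderOf κ = orderOf ((x.1 ^ m) ^ p ^ a) := by
      rw [orderOf_eq_orderOf_iff]
      intro j
      rw [← pow_mul]
      constructor
      · intro h
        have h1 := hpow j
        rw [h] at h1
        have h2 : x.2.1 * (x.1 ^ m) ^ (p ^ a * j) = x.2.1 * 1 := by
          rw [← h1]; group
        exact mul_left_cancel h2
      · intro h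
        have h1 := hpow j
        rw [h, mul_one] at h1
        refine hx5 (κ ^ j) (Subgroup.pow_mem _ k1 j) ?_
        calc κ ^ j * x.2.1 = (κ ^ j * x.2.1 * (κ ^ j)⁻¹) * κ ^ j := by group
          _ = x.2.1 * κ ^ j := by rw [h1]
    obtain ⟨k, hk⟩ := hP
    obtain ⟨n, hn, hn2⟩ := (Nat.dvd_prime_pow hp).1 (orderOf_dvd_of_pow_eq_one hk)
    have han : a ≤ n := by
      by_contra hlt
      have hlt' : n < a := not_le.1 hlt
      refine k3 (p ^ n) (pow_pos hp.pos n) (Nat.pow_lt_pow_right hp.one_lt hlt') 1 ?_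
      refine ⟨Subgroup.one_mem _, ?_⟩
      rw [← hn2, pow_orderOf_eq_one]
      group
    have hpa : p ^ a ≠ 0 := (pow_pos hp.pos a).ne'
    rw [hord, orderOf_pow' (x.1 ^ m) hpa, hn2,
      Nat.gcd_eq_right (pow_dvd_pow p han), Nat.mul_div_cancel' (pow_dvd_pow p han)]

end Pool.Agent.TZ
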