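import Pool.Agent.helper12.TZ.Spec

set_option autoImplicit false

namespace Pool.Agent.TZ

open Pool.Agent.helper58.DC Pool.Agent.DI Pool.Agent.GR Pool.Agent.OB

theorem QKU_cm {G : Type} [Group G] (D : Subgroup G) (m : ℕ) (x : Tr G) :
    Cm (x.1 ^ m) (HX D x) := by
  intro h hh
  have h1 : h ∈ Subgroup.centralizer ({x.1} : Set G) := hh.1.2
  rw [Subgroup.mem_centralizer_singleton_iff] at h1
  have h2 : Commute h x.1 := h1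
  exact h2.pow_right m

/-- **QKU**. -/
theorem QKU (hSTB : STB_stmt) : QKU_stmt := by
  intro G _ _ p m a _ g D hD x hx κ
  obtain ⟨hx1, hx2, hx3, hx4, hx5⟩ := hx
  have hcm := QKU_cm D m x
  obtain ⟨-, s2, s3, s4⟩ := hSTB G (x.1 ^ m) x.2.1 (HX D x) hcm hx5
  have hsB : x.1 ^ m ∈ Bi (x.1 ^ m) x.2.1 (HX D x) :=
    (le_sup_right : Subgroup.zpowers (x.1 ^ m) ≤ _) (Subgroup.mem_zpowers _)
  have key : ∀ (i : ℕ) (κ' : G), RL m D x i κ' → κ' ∈ UX m D x := by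
    rintro i κ' ⟨k1, k2⟩
    refine (s4 κ' k1).1 ?_
    have h1 : x.2.1⁻¹ * κ' * x.2.1 * κ'⁻¹ = (x.1 ^ m) ^ i := by
      calc x.2.1⁻¹ * κ' * x.2.1 * κ'⁻¹ = x.2.1⁻¹ * (κ' * x.2.1 * κ'⁻¹) := by group
        _ = _ := by rw [k2]; group
    rw [h1]
    exact Subgroup.pow_mem _ hsB _
  constructor
  · rintro ⟨q1, q2⟩
    refine ⟨key _ _ q1, q1.2, ?_⟩
    intro i hi hi2 κ' hκ' he
    exact q2 i hi hi2 κ' ⟨s2 hκ', he⟩
  · rintro ⟨q1, q2, q3⟩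
    refine ⟨⟨s2 q1, q2⟩, ?_⟩
    intro i hi hi2 κ' hr
    exact q3 i hi hi2 κ' (key _ _ hr) hr.2

end Pool.Agent.TZ
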